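import Pool.Agent.H74.SL.Lag

/-!
# [H74 SL CLS] The classes which are not killed (section 5 of proofs 363, MP_1bad5e_ag)

`e = 0` (moments), `e = 1` (moments weighted with the parity), `L i j l = q (i + j + l) + e`.  `NotKilled e i0 j0 k0 A B C`: the six values of `L` which are killed by Lemmas T and T2 vanish
on `A × B × C`.  Then `|A| |B| |C| < 8 ^ k`, or `e = 0` and `A ∋ i0`, `B ∋ j0`, `C ∋ k0` are cosets of one Lagrangian with `q = 0` on `A + B + C`.
-/

set_option autoImplicit false

namespace Pool.Agent.H74.SL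

open Pool.Agent.H94.PN

variable {k : ℕ}

/-- the sum of the exponents of the three symbols -/
def L (e : ZMod 2) (i j l : V k) : ZMod 2 := q (i + j + l) + e

/-- the classes which are not killed by Lemmas T and T2 -/
structure NotKilled (e : ZMod 2) (i0 j0 k0 : V k) (A B C : Finset (V k)) : Prop where
  a : ∀ u ∈ A, L e u j0 k0 = 0
  b : ∀ v ∈ B, L e i0 v k0 = 0
  c : ∀ t ∈ C, L e i0 j0 t = 0
  ab : ∀ u ∈ A, ∀ v ∈ B, L e u v k0 = 0
  ac : ∀ u ∈ A, ∀ t ∈ C, L e u j0 t = 0
  bc : ∀ v ∈ B, ∀ t ∈ C, L e i0 v t = 0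

/-- the third difference of `L` is zero -/
theorem third (e : ZMod 2) (i j l i' j' l' : V k) :
    L e i' j' l' = L e i j l + L e i' j l + L e i j' l + L e i j l' + L e i' j' l + L e i' j l' +
      L e i j' l' := by
  unfold L
  simp only [q_add, w_add_left]
  have t0 := two_zero e
  have t1 := two_zero (q i)
  have t2 := two_zero (q i')
  have t3 := two_zero (q j)
  have t4 := two_zero (q j')
  have t5 := two_zero (q l)
  have t6 := two_zero (q l')
  have s1 := two_zero (w i j)
  have s2 := two_zero (w i' j)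
  have s3 := two_zero (w i j')
  have s4 := two_zero (w i' j')
  have s5 := two_zero (w i l)
  have s6 := two_zero (w i' l)
  have s7 := two_zero (w i l')
  have s8 := two_zero (w i' l')
  have s9 := two_zero (w j l)
  have s10 := two_zero (w j' l)
  have s11 := two_zero (w j l')
  have s12 := two_zero (w j' l')
  linear_combination -(3 * t0 + 2 * t1 + t2 + 2 * t3 + t4 + 2 * t5 + t6 + s1 + s2 + s3 + s5 + s6 + s7 +
    s9 + s10 + s11)

/-- `L` is constant on `A × B × C` -/
theorem const {e : ZMod 2} {i0 j0 k0 : V k} {A B C : Finset (V k)}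
    (h : NotKilled e i0 j0 k0 A B C) : ∀ u ∈ A, ∀ v ∈ B, ∀ t ∈ C, L e u v t = L e i0 j0 k0 := by
  intro u hu v hv t ht
  rw [third e i0 j0 k0 u v t, h.a u hu, h.b v hv, h.c t ht, h.ab u hu v hv, h.ac u hu t ht,
    h.bc v hv t ht]
  ring

theorem q_of_L {e c : ZMod 2} {i j l : V k} (h : L e i j l = c) : q (i + j + l) = c + e := by
  unfold L at h
  have := two_zero e
  linear_combination h - this

theorem classes {e : ZMod 2} {i0 j0 k0 : V k} {A B C : Finset (V k)}
    (h : NotKilled e i0 j0 k0 A B C) :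
    A.card * B.card * C.card < 8 ^ k ∨
      (e = 0 ∧ ∃ Λ : Submodule (ZMod 2) (V k), Lag 2 k Λ ∧ (∀ x, x ∈ A ↔ x + i0 ∈ Λ) ∧
        (∀ x, x ∈ B ↔ x + j0 ∈ Λ) ∧ (∀ x, x ∈ C ↔ x + k0 ∈ Λ) ∧
        ∀ l ∈ Λ, w (i0 + j0 + k0) l = q l) := by
  classical
  rcases A.eq_empty_or_nonempty with hA | hA
  · left
    rw [hA, Finset.card_empty, zero_mul, zero_mul]
    positivity
  rcases B.eq_empty_or_nonempty with hB | hB
  · left
    rw [hB, Finset.card_empty, mul_zero, zero_mul]
    positivity
  rcases C.eq_empty_or_nonempty with hC | hC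
  · left
    rw [hC, Finset.card_empty, mul_zero]
    positivity
  have hL := const h
  set c := L e i0 j0 k0 with hc
  have hq : ∀ u ∈ A, ∀ v ∈ B, ∀ t ∈ C, q (u + v + t) = c + e :=
    fun u hu v hv t ht => q_of_L (hL u hu v hv t ht)
  rcases (prod_le hA hB hC hq).lt_or_eq with hlt | heq
  · exact Or.inl hlt
  right
  obtain ⟨Λ, hΛ, cA, cB, cC⟩ := prod_eq hA hB hC hq heq
  obtain ⟨u, hu⟩ := hA
  obtain ⟨v, hv⟩ := hB
  obtain ⟨t, ht⟩ := hC
  -- `q` is constant on the coset `u + v + t + Λ`
  have hcz : c + e = 0 := by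
    refine (coset_zero hΛ (s := u + v + t) (c := c + e) fun l hl => ?_).1
    have h1 : u + l ∈ A := by
      rw [cA u hu, add_right_comm, v_two, zero_add]
      exact hl
    rw [← hq (u + l) h1 v hv t ht]
    congr 1
    abel
  have hce : c = e := by
    have := two_zero e
    linear_combination hcz - this
  have hz : e = 0 := by
    by_contra he
    have he1 : e = 1 := by
      revert he
      generalize e = a
      revert a
      decide
    -- `q (x + j0 + k0) = 1` on `A`
    have h1 : ∀ x ∈ A, q (x + j0 + k0) = 1 := by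
      intro x hx
      rw [q_of_L (h.a x hx), he1, zero_add]
    have h2 : (1 : ZMod 2) = 0 := by
      refine (coset_zero hΛ (s := u + j0 + k0) (c := 1) fun l hl => ?_).1
      have h3 : u + l ∈ A := by
        rw [cA u hu, add_right_comm, v_two, zero_add]
        exact hl
      rw [← h1 (u + l) h3]
      congr 1
      abel
    exact one_ne_zero h2
  have hc0 : c = 0 := by rw [hce, hz]
  refine ⟨hz, Λ, hΛ, ?_⟩
  -- `i0 ∈ A`
  have key : ∀ {A B C : Finset (V k)} {i0 : V k}, B.Nonempty → C.Nonempty →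
      A.card * B.card * C.card = 8 ^ k →
      (∀ x ∈ A, ∀ y ∈ B, ∀ z ∈ C, q (x + y + z) = 0) → (∀ y ∈ B, ∀ z ∈ C, q (i0 + y + z) = 0) →
      i0 ∈ A := by
    intro A B C i0 hB hC heq h1 h2
    by_contra h3
    have h4 : (insert i0 A).card * B.card * C.card ≤ 8 ^ k := by
      refine prod_le (c := 0) (Finset.insert_nonempty _ _) hB hC ?_
      intro x hx y hy z hz
      rcases Finset.mem_insert.1 hx with rfl | hx
      · exact h2 y hy z hz
      · exact h1 x hx y hy z hz
    rw [Finset.card_insert_of_notMem h3, ← heq, add_mul, add_mul, one_mul] at h4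
    have h5 := hB.card_pos
    have h6 := hC.card_pos
    have h7 : 0 < B.card * C.card := Nat.mul_pos h5 h6
    omega
  have hq0 : ∀ x ∈ A, ∀ y ∈ B, ∀ z ∈ C, q (x + y + z) = 0 := by
    intro x hx y hy z hz'
    rw [hq x hx y hy z hz', hcz]
  have hi : i0 ∈ A := by
    refine key ⟨v, hv⟩ ⟨t, ht⟩ heq hq0 fun y hy z hz' => ?_
    rw [q_of_L (h.bc y hy z hz'), hz, add_zero]
  have hj : j0 ∈ B := by
    refine key (A := B) (B := A) (C := C) ⟨u, hu⟩ ⟨t, ht⟩ (by rw [← heq]; ring) ?_
      fun y hy z hz' => ?_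
    · intro x hx y hy z hz'
      rw [← hq0 y hy x hx z hz']
      congr 1
      abel
    · have h1 := q_of_L (h.ac y hy z hz')
      rw [hz, add_zero] at h1
      rw [← h1]
      congr 1
      abel
  have hk : k0 ∈ C := by
    refine key (A := C) (B := A) (C := B) ⟨u, hu⟩ ⟨v, hv⟩ (by rw [← heq]; ring) ?_
      fun y hy z hz' => ?_
    · intro x hx y hy z hz'
      rw [← hq0 y hy z hz' x hx]
      congr 1
      abel
    · have h1 := q_of_L (h.ab y hy z hz')
      rw [hz, add_zero] at h1
      rw [← h1]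
      congr 1
      abel
  refine ⟨fun x => cA i0 hi x, fun x => cB j0 hj x, fun x => cC k0 hk x, ?_⟩
  refine (coset_zero hΛ (s := i0 + j0 + k0) (c := 0) fun l hl => ?_).2
  have h1 : i0 + l ∈ A := by
    rw [cA i0 hi, add_right_comm, v_two, zero_add]
    exact hl
  rw [← hq0 (i0 + l) h1 j0 hj k0 hk]
  congr 1
  abel

/-- the number of Lagrangians -/
theorem lk2 (k : ℕ) : Lk 2 k = ∏ i ∈ Finset.range k, (2 ^ (i + 1) + 1) := by
  induction k with
  | zero => rw [lk_zero, Finset.prod_range_zero]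
  | succ n ih =>
    rw [lk_succ, if_pos rfl, Finset.prod_range_succ, ih, mul_comm, add_comm 1]

end Pool.Agent.H74.SL
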