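import Pool.Agent.H94.PN.LKR

/-!
# [H74 SL LAG] Lagrangians in `V = F_2^(2k)` (MP_1bad5e_ag, law of the 2-Selmer groups on a positive share of all pairs)

`V k = H0 2 k` (`H94/PN/TEN`), `q x = dotp x.1 x.2`, `w` its polar form, `L(i, j, l) = q (i + j + l)`.

* `prod_le`: if `q (i + j + l) = c` on `I × J × K` (all nonempty) then `|I| |J| |K| ≤ 8 ^ k`.
* `prod_eq`: in the case of equality `I`, `J`, `K` are cosets of one Lagrangian.
* `coset_zero`: `q` constant on a coset `s + Λ` is zero there, and `w s l = q l` on `Λ`.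
* `coset_exists`, `coset_unique`: there is exactly one such coset for each Lagrangian `Λ`.
-/

set_option autoImplicit false

namespace Pool.Agent.H74.SL

open Pool.Agent.H94.PN

/-- the space of the positions -/
abbrev V (k : ℕ) : Type := H0 2 k

variable {k : ℕ}

/-- the quadratic form -/
def q (x : V k) : ZMod 2 := dotp x.1 x.2

/-- the polar form -/
def w (x y : V k) : ZMod 2 := dotp x.1 y.2 + dotp y.1 x.2

theorem dotp_add_left (a a' b : Fin k → ZMod 2) : dotp (a + a') b = dotp a b + dotp a' b := by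
  unfold dotp
  rw [← Finset.sum_add_distrib]
  exact Finset.sum_congr rfl fun i _ => by rw [Pi.add_apply, add_mul]

theorem dotp_add_right (a b b' : Fin k → ZMod 2) : dotp a (b + b') = dotp a b + dotp a b' := by
  unfold dotp
  rw [← Finset.sum_add_distrib]
  exact Finset.sum_congr rfl fun i _ => by rw [Pi.add_apply, mul_add]

theorem dotp_smul_left (c : ZMod 2) (a b : Fin k → ZMod 2) : dotp (c • a) b = c * dotp a b := by
  unfold dotp
  rw [Finset.mul_sum]
  exact Finset.sum_congr rfl fun i _ => by rw [Pi.smul_apply, smul_eq_mul, mul_assoc]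

theorem dotp_smul_right (c : ZMod 2) (a b : Fin k → ZMod 2) : dotp a (c • b) = c * dotp a b := by
  unfold dotp
  rw [Finset.mul_sum]
  exact Finset.sum_congr rfl fun i _ => by rw [Pi.smul_apply, smul_eq_mul]; ring

theorem dotp_comm (a b : Fin k → ZMod 2) : dotp a b = dotp b a := by
  unfold dotp
  exact Finset.sum_congr rfl fun i _ => mul_comm _ _

theorem two_zero (a : ZMod 2) : a + a = 0 := by
  revert a
  decide

theorem v_two (x : V k) : x + x = 0 := by
  refine Prod.ext ?_ ?_ <;> funext i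
  · exact two_zero _
  · exact two_zero _

theorem w_add_left (x x' y : V k) : w (x + x') y = w x y + w x' y := by
  unfold w
  rw [Prod.fst_add, Prod.snd_add, dotp_add_left, dotp_add_right]
  ring

theorem w_comm (x y : V k) : w x y = w y x := by
  unfold w
  ring

theorem w_add_right (x y y' : V k) : w x (y + y') = w x y + w x y' := by
  rw [w_comm, w_add_left, w_comm y, w_comm y']

theorem w_smul_left (c : ZMod 2) (x y : V k) : w (c • x) y = c * w x y := by
  unfold w
  rw [Prod.smul_fst, Prod.smul_snd, dotp_smul_left, dotp_smul_right]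
  ring

theorem w_smul_right (c : ZMod 2) (x y : V k) : w x (c • y) = c * w x y := by
  rw [w_comm, w_smul_left, w_comm]

theorem w_self (x : V k) : w x x = 0 := two_zero _

theorem w_zero_left (y : V k) : w 0 y = 0 := by
  have := w_smul_left 0 0 y
  rwa [smul_zero, zero_mul] at this

theorem w_zero_right (y : V k) : w y 0 = 0 := by rw [w_comm, w_zero_left]

theorem q_zero : q (0 : V k) = 0 := by
  unfold q dotp
  simp

theorem q_add (x y : V k) : q (x + y) = q x + q y + w x y := by
  unfold q w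
  rw [Prod.fst_add, Prod.snd_add, dotp_add_left, dotp_add_right, dotp_add_right]
  ring

theorem w_nondeg {x : V k} (h : ∀ y, w x y = 0) : x = 0 := by
  refine Prod.ext ?_ ?_ <;> funext i
  · have h1 := h (0, Pi.single i 1)
    unfold w dotp at h1
    simpa [Pi.single_apply] using h1
  · have h1 := h (Pi.single i 1, 0)
    unfold w dotp at h1
    simpa [Pi.single_apply] using h1

/-- the polar form as a bilinear form -/
def W (k : ℕ) : LinearMap.BilinForm (ZMod 2) (V k) :=
  LinearMap.mk₂ (ZMod 2) w w_add_left w_smul_left w_add_right w_smul_right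

theorem W_apply (x y : V k) : W k x y = w x y := rfl

theorem W_nondeg : (W k).Nondegenerate := by
  refine ⟨fun x hx => w_nondeg fun y => hx y, fun x hx => w_nondeg fun y => ?_⟩
  rw [w_comm]
  exact hx y

/-- the orthogonal space -/
def perp (S : Submodule (ZMod 2) (V k)) : Submodule (ZMod 2) (V k) := (W k).orthogonal S

theorem mem_perp {S : Submodule (ZMod 2) (V k)} {x : V k} :
    x ∈ perp S ↔ ∀ s ∈ S, w s x = 0 := Iff.rfl

theorem card_V : Nat.card (V k) = 4 ^ k := by
  rw [Nat.card_prod, Nat.card_fun, Nat.card_fin, Nat.card_zmod, ← mul_pow]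
  norm_num

theorem card_perp (S : Submodule (ZMod 2) (V k)) :
    Nat.card S * Nat.card (perp S) = 4 ^ k := by
  have h1 := LinearMap.BilinForm.finrank_orthogonal (W_nondeg (k := k)) S
  have h2 : Module.finrank (ZMod 2) S ≤ Module.finrank (ZMod 2) (V k) := Submodule.finrank_le S
  rw [Module.natCard_eq_pow_finrank (K := ZMod 2) (V := S),
    Module.natCard_eq_pow_finrank (K := ZMod 2) (V := perp S), ← card_V (k := k),
    Module.natCard_eq_pow_finrank (K := ZMod 2) (V := V k), Nat.card_zmod, ← pow_add]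
  congr 1
  unfold perp
  rw [h1]
  omega

theorem card_pos (S : Submodule (ZMod 2) (V k)) : 0 < Nat.card S := Nat.card_pos

/-- orthogonal subspaces -/
theorem ortho_card {S T : Submodule (ZMod 2) (V k)} (h : ∀ s ∈ S, ∀ t ∈ T, w s t = 0) :
    Nat.card S * Nat.card T ≤ 4 ^ k := by
  rw [← card_perp S]
  refine Nat.mul_le_mul_left _ ?_
  have h1 : T ≤ perp S := fun t ht => mem_perp.2 fun s hs => h s hs t ht
  exact Nat.card_le_card_of_injective (Submodule.inclusion h1) (Submodule.inclusion_injective _)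

theorem eq_of_card {S T : Submodule (ZMod 2) (V k)} (h : S ≤ T)
    (hc : Nat.card T ≤ Nat.card S) : S = T := by
  refine SetLike.coe_injective ?_
  refine Set.eq_of_subset_of_ncard_le h ?_ (Set.toFinite _)
  rw [← Nat.card_coe_set_eq, ← Nat.card_coe_set_eq]
  exact hc

theorem ortho_eq {S T : Submodule (ZMod 2) (V k)} (h : ∀ s ∈ S, ∀ t ∈ T, w s t = 0)
    (hc : Nat.card S * Nat.card T = 4 ^ k) : T = perp S := by
  refine eq_of_card (fun t ht => mem_perp.2 fun s hs => h s hs t ht) ?_
  rw [← card_perp S] at hc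
  exact (Nat.eq_of_mul_eq_mul_left (card_pos S) hc).ge

theorem ortho_span {A B : Set (V k)} (h : ∀ a ∈ A, ∀ b ∈ B, w a b = 0) :
    ∀ s ∈ Submodule.span (ZMod 2) A, ∀ t ∈ Submodule.span (ZMod 2) B, w s t = 0 := by
  have h1 : ∀ b ∈ B, ∀ s ∈ Submodule.span (ZMod 2) A, w s b = 0 := by
    intro b hb s hs
    induction hs using Submodule.span_induction with
    | mem x hx => exact h x hx b hb
    | zero => exact w_zero_left b
    | add x y _ _ hx hy => rw [w_add_left, hx, hy, add_zero]
    | smul c x _ hx => rw [w_smul_left, hx, mul_zero]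
  intro s hs t ht
  induction ht using Submodule.span_induction with
  | mem x hx => exact h1 x hx s hs
  | zero => exact w_zero_right s
  | add x y _ _ hx hy => rw [w_add_right, hx, hy, add_zero]
  | smul c x _ hx => rw [w_smul_right, hx, mul_zero]

/-- the span of the differences -/
def D (I : Finset (V k)) : Submodule (ZMod 2) (V k) :=
  Submodule.span (ZMod 2) {x | ∃ i ∈ I, ∃ i' ∈ I, x = i + i'}

theorem mem_D {I : Finset (V k)} {i i' : V k} (hi : i ∈ I) (hi' : i' ∈ I) : i + i' ∈ D I :=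
  Submodule.subset_span ⟨i, hi, i', hi', rfl⟩

theorem add_cancel {i x y : V k} (h : x + i = y + i) : x = y := add_right_cancel h

theorem card_le_D {I : Finset (V k)} (hI : I.Nonempty) : I.card ≤ Nat.card (D I) := by
  obtain ⟨i, hi⟩ := hI
  have h1 : Function.Injective (fun x : I => (⟨x.1 + i, mem_D x.2 hi⟩ : D I)) := by
    intro x y h
    exact Subtype.ext (add_right_cancel (congrArg Subtype.val h))
  have h2 := Nat.card_le_card_of_injective _ h1
  rwa [Nat.card_eq_fintype_card (α := I), Fintype.card_coe] at h2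

/-- if there are as many elements as in the span of the differences then this is a coset -/
theorem coset_of_card {I : Finset (V k)} (hc : I.card = Nat.card (D I)) {i : V k} (hi : i ∈ I)
    (x : V k) : x ∈ I ↔ x + i ∈ D I := by
  constructor
  · intro hx
    exact mem_D hx hi
  · intro hx
    classical
    have hf : Function.Injective (fun x : I => (⟨x.1 + i, mem_D x.2 hi⟩ : D I)) := by
      intro x y h
      exact Subtype.ext (add_right_cancel (congrArg Subtype.val h))
    let _ : Fintype (D I) := Fintype.ofFinite _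
    have hs : Function.Surjective (fun x : I => (⟨x.1 + i, mem_D x.2 hi⟩ : D I)) := by
      refine (Fintype.bijective_iff_injective_and_card _).2 ⟨hf, ?_⟩ |>.2
      rw [Fintype.card_coe, hc, Nat.card_eq_fintype_card]
    obtain ⟨y, hy⟩ := hs ⟨x + i, hx⟩
    have : y.1 = x := add_right_cancel (congrArg Subtype.val hy)
    rw [← this]
    exact y.2

theorem second {I J K : Finset (V k)} {c : ZMod 2} (hK : K.Nonempty)
    (h : ∀ i ∈ I, ∀ j ∈ J, ∀ l ∈ K, q (i + j + l) = c) :
    ∀ s ∈ D I, ∀ t ∈ D J, w s t = 0 := by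
  refine ortho_span ?_
  rintro _ ⟨i, hi, i', hi', rfl⟩ _ ⟨j, hj, j', hj', rfl⟩
  obtain ⟨l, hl⟩ := hK
  have h1 := h i hi j hj l hl
  have h2 := h i' hi' j hj l hl
  have h3 := h i hi j' hj' l hl
  have h4 := h i' hi' j' hj' l hl
  simp only [q_add, w_add_left] at h1 h2 h3 h4
  simp only [w_add_left, w_add_right]
  have e : w i j + w i j' + (w i' j + w i' j') =
      (q i + q j + w i j + q l + (w i l + w j l)) + (q i' + q j + w i' j + q l + (w i' l + w j l)) +
      (q i + q j' + w i j' + q l + (w i l + w j' l)) +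
      (q i' + q j' + w i' j' + q l + (w i' l + w j' l)) := by
    have t1 := two_zero (q i)
    have t2 := two_zero (q i')
    have t3 := two_zero (q j)
    have t4 := two_zero (q j')
    have t5 := two_zero (q l)
    have t6 := two_zero (w i l)
    have t7 := two_zero (w i' l)
    have t8 := two_zero (w j l)
    have t9 := two_zero (w j' l)
    linear_combination -(t1 + t2 + t3 + t4 + 2 * t5 + t6 + t7 + t8 + t9)
  have h5 : w i j + w i j' + (w i' j + w i' j') = c + c + c + c := by
    rw [e, h1, h2, h3, h4]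
  have h6 : w i j + w i' j + (w i j' + w i' j') = w i j + w i j' + (w i' j + w i' j') := by ring
  have h7 : c + c + c + c = 0 := by
    have := two_zero c
    linear_combination 2 * this
  rw [h6, h5, h7]


theorem three {a b c N : ℕ} (h1 : a * b ≤ N ^ 2) (h2 : b * c ≤ N ^ 2) (h3 : a * c ≤ N ^ 2) :
    a * b * c ≤ N ^ 3 := by
  have h4 : (a * b * c) ^ 2 ≤ (N ^ 3) ^ 2 := by
    calc (a * b * c) ^ 2 = (a * b) * (b * c) * (a * c) := by ring
      _ ≤ N ^ 2 * N ^ 2 * N ^ 2 := Nat.mul_le_mul (Nat.mul_le_mul h1 h2) h3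
      _ = (N ^ 3) ^ 2 := by ring
  exact (Nat.pow_le_pow_iff_left (by norm_num)).1 h4

theorem three_eq {a b c N : ℕ} (hN : 0 < N) (h1 : a * b ≤ N ^ 2) (h2 : b * c ≤ N ^ 2)
    (h3 : a * c ≤ N ^ 2) (h : a * b * c = N ^ 3) : a = N ∧ b = N ∧ c = N := by
  have hc : N ≤ c := by
    have h4 : N ^ 2 * N ≤ N ^ 2 * c := by
      calc N ^ 2 * N = a * b * c := by rw [h]; ring
        _ ≤ N ^ 2 * c := Nat.mul_le_mul_right _ h1
    exact Nat.le_of_mul_le_mul_left h4 (by positivity)
  have hb : N ≤ b := by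
    have h4 : N ^ 2 * N ≤ N ^ 2 * b := by
      calc N ^ 2 * N = a * c * b := by rw [mul_right_comm, h]; ring
        _ ≤ N ^ 2 * b := Nat.mul_le_mul_right _ h3
    exact Nat.le_of_mul_le_mul_left h4 (by positivity)
  have ha : N ≤ a := by
    have h4 : N ^ 2 * N ≤ N ^ 2 * a := by
      calc N ^ 2 * N = b * c * a := by rw [mul_comm (b * c) a, ← mul_assoc, h]; ring
        _ ≤ N ^ 2 * a := Nat.mul_le_mul_right _ h2
    exact Nat.le_of_mul_le_mul_left h4 (by positivity)
  refine ⟨?_, ?_, ?_⟩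
  · nlinarith
  · nlinarith
  · nlinarith

theorem four_pow : (4 : ℕ) ^ k = (2 ^ k) ^ 2 := by
  rw [← pow_mul, mul_comm, pow_mul]
  norm_num

theorem eight_pow : (8 : ℕ) ^ k = (2 ^ k) ^ 3 := by
  rw [← pow_mul, mul_comm, pow_mul]
  norm_num

theorem D_ortho {I J K : Finset (V k)} {c : ZMod 2} (hI : I.Nonempty) (hJ : J.Nonempty)
    (hK : K.Nonempty) (h : ∀ i ∈ I, ∀ j ∈ J, ∀ l ∈ K, q (i + j + l) = c) :
    (∀ s ∈ D I, ∀ t ∈ D J, w s t = 0) ∧ (∀ s ∈ D J, ∀ t ∈ D K, w s t = 0) ∧
      (∀ s ∈ D I, ∀ t ∈ D K, w s t = 0) := by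
  refine ⟨second hK h, second (c := c) hI fun j hj l hl i hi => ?_,
    second (c := c) hJ fun i hi l hl j hj => ?_⟩
  · rw [← h i hi j hj l hl]
    congr 1
    abel
  · rw [← h i hi j hj l hl]
    congr 1
    abel

theorem prod_le {I J K : Finset (V k)} {c : ZMod 2} (hI : I.Nonempty) (hJ : J.Nonempty)
    (hK : K.Nonempty) (h : ∀ i ∈ I, ∀ j ∈ J, ∀ l ∈ K, q (i + j + l) = c) :
    I.card * J.card * K.card ≤ 8 ^ k := by
  obtain ⟨h1, h2, h3⟩ := D_ortho hI hJ hK h
  have g1 := ortho_card h1
  have g2 := ortho_card h2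
  have g3 := ortho_card h3
  rw [four_pow] at g1 g2 g3
  rw [eight_pow]
  exact (Nat.mul_le_mul (Nat.mul_le_mul (card_le_D hI) (card_le_D hJ)) (card_le_D hK)).trans
    (three g1 g2 g3)

theorem prod_eq {I J K : Finset (V k)} {c : ZMod 2} (hI : I.Nonempty) (hJ : J.Nonempty)
    (hK : K.Nonempty) (h : ∀ i ∈ I, ∀ j ∈ J, ∀ l ∈ K, q (i + j + l) = c)
    (he : I.card * J.card * K.card = 8 ^ k) :
    ∃ Λ : Submodule (ZMod 2) (V k), Lag 2 k Λ ∧ (∀ i ∈ I, ∀ x, x ∈ I ↔ x + i ∈ Λ) ∧
      (∀ i ∈ J, ∀ x, x ∈ J ↔ x + i ∈ Λ) ∧ (∀ i ∈ K, ∀ x, x ∈ K ↔ x + i ∈ Λ) := by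
  obtain ⟨h1, h2, h3⟩ := D_ortho hI hJ hK h
  have g1 := ortho_card h1
  have g2 := ortho_card h2
  have g3 := ortho_card h3
  have a1 := card_le_D hI
  have a2 := card_le_D hJ
  have a3 := card_le_D hK
  rw [four_pow] at g1 g2 g3
  rw [eight_pow] at he
  have hN : 0 < 2 ^ k := by positivity
  have b1 : I.card * J.card ≤ (2 ^ k) ^ 2 := (Nat.mul_le_mul a1 a2).trans g1
  have b2 : J.card * K.card ≤ (2 ^ k) ^ 2 := (Nat.mul_le_mul a2 a3).trans g2
  have b3 : I.card * K.card ≤ (2 ^ k) ^ 2 := (Nat.mul_le_mul a1 a3).trans g3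
  obtain ⟨e1, e2, e3⟩ := three_eq hN b1 b2 b3 he
  have hup : Nat.card (D I) * Nat.card (D J) * Nat.card (D K) = (2 ^ k) ^ 3 := by
    refine le_antisymm (three g1 g2 g3) ?_
    rw [← he]
    exact Nat.mul_le_mul (Nat.mul_le_mul a1 a2) a3
  obtain ⟨f1, f2, f3⟩ := three_eq hN g1 g2 g3 hup
  have p1 : D K = perp (D J) := ortho_eq h2 (by rw [f2, f3, four_pow]; ring)
  have p2 : D K = perp (D I) := ortho_eq h3 (by rw [f1, f3, four_pow]; ring)
  have p3 : D J = perp (D I) := ortho_eq h1 (by rw [f1, f2, four_pow]; ring)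
  have p4 : D I = perp (D J) := ortho_eq (fun s hs t ht => by rw [w_comm]; exact h1 t ht s hs)
    (by rw [f1, f2, four_pow]; ring)
  have q1 : D J = D K := by rw [p3, p2]
  have q2 : D I = D K := by rw [p4, p1]
  refine ⟨D K, ⟨f3, ?_, fun h => (h rfl).elim⟩, ?_, ?_, ?_⟩
  · intro x hx y hy
    have hx' : x ∈ D J := by rw [q1]; exact hx
    have h5 := h2 x hx' y hy
    unfold w at h5
    rw [dotp_comm x.2 y.1, dotp_comm y.2 x.1, add_comm]
    exact h5
  · intro i hi x
    rw [← q2]
    exact coset_of_card (by rw [e1, f1]) hi x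
  · intro i hi x
    rw [← q1]
    exact coset_of_card (by rw [e2, f2]) hi x
  · intro i hi x
    exact coset_of_card (by rw [e3, f3]) hi x

/-! ## Gauss sums -/

/-- the sign -/
def sg (a : ZMod 2) : ℤ := if a = 0 then 1 else -1

theorem sg_add (a b : ZMod 2) : sg (a + b) = sg a * sg b := by
  revert a b
  decide

theorem sg_zero : sg 0 = 1 := rfl

theorem sg_one : sg 1 = -1 := rfl

theorem lag_w {Λ : Submodule (ZMod 2) (V k)} (hΛ : Lag 2 k Λ) {x y : V k} (hx : x ∈ Λ)
    (hy : y ∈ Λ) : w x y = 0 := by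
  have h1 := hΛ.2.1 x hx y hy
  unfold w
  rw [dotp_comm x.1 y.2, dotp_comm y.1 x.2, add_comm]
  exact h1

theorem lag_perp {Λ : Submodule (ZMod 2) (V k)} (hΛ : Lag 2 k Λ) : Λ = perp Λ :=
  ortho_eq (fun _ hs _ ht => lag_w hΛ hs ht) (by rw [hΛ.1, four_pow]; ring)

theorem lag_mem {Λ : Submodule (ZMod 2) (V k)} (hΛ : Lag 2 k Λ) {x : V k}
    (h : ∀ l ∈ Λ, w x l = 0) : x ∈ Λ := by
  rw [lag_perp hΛ]
  exact mem_perp.2 fun s hs => by rw [w_comm]; exact h s hs

theorem gauss {Λ : Submodule (ZMod 2) (V k)} (hΛ : Lag 2 k Λ) (f : V k → ZMod 2)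
    (hf : ∀ x y, f (x + y) = f x + f y + w x y) (hl : ∀ l ∈ Λ, f l = 0) :
    ∑ x, sg (f x) = 2 ^ k := by
  classical
  let _ : Fintype Λ := Fintype.ofFinite _
  have hc : Fintype.card Λ = 2 ^ k := by rw [← Nat.card_eq_fintype_card]; exact hΛ.1
  have h1 : ∀ x : V k, ∑ l : Λ, sg (f (x + l.1)) = if x ∈ Λ then (2 : ℤ) ^ k else 0 := by
    intro x
    have h2 : ∀ l : Λ, sg (f (x + l.1)) = sg (f x) * sg (w x l.1) := by
      intro l
      rw [hf, hl l.1 l.2, add_zero, sg_add]
    rw [Finset.sum_congr rfl fun l _ => h2 l, ← Finset.mul_sum]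
    by_cases hx : x ∈ Λ
    · rw [if_pos hx, hl x hx, sg_zero, one_mul,
        Finset.sum_congr rfl fun l _ => by rw [lag_w hΛ hx l.2, sg_zero], Finset.sum_const,
        Finset.card_univ, hc, nsmul_eq_mul, mul_one]
      push_cast
      rfl
    · rw [if_neg hx]
      have h3 : ∃ l ∈ Λ, w x l ≠ 0 := by
        by_contra h4
        push Not at h4
        exact hx (lag_mem hΛ h4)
      obtain ⟨l0, hl0, hw⟩ := h3
      have hw1 : w x l0 = 1 := by
        revert hw
        generalize w x l0 = a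
        revert a
        decide
      have h4 : ∑ l : Λ, sg (w x l.1) = -∑ l : Λ, sg (w x l.1) := by
        rw [← Finset.sum_neg_distrib]
        refine Fintype.sum_equiv (Equiv.addRight (⟨l0, hl0⟩ : Λ)) _ _ fun l => ?_
        have e : ((Equiv.addRight (⟨l0, hl0⟩ : Λ)) l).1 = l.1 + l0 := rfl
        rw [e, w_add_right, hw1, sg_add, sg_one]
        ring
      have h5 : ∑ l : Λ, sg (w x l.1) = 0 := by linarith
      rw [h5, mul_zero]
  have h2 : (2 : ℤ) ^ k * ∑ x, sg (f x) = 2 ^ k * 2 ^ k := by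
    have h3 : ∑ x : V k, ∑ l : Λ, sg (f (x + l.1)) = 2 ^ k * ∑ x, sg (f x) := by
      rw [Finset.sum_comm]
      have h4 : ∀ l : Λ, ∑ x : V k, sg (f (x + l.1)) = ∑ x, sg (f x) := by
        intro l
        exact Fintype.sum_equiv (Equiv.addRight l.1) _ _ fun x => rfl
      rw [Finset.sum_congr rfl fun l _ => h4 l, Finset.sum_const, Finset.card_univ, hc,
        nsmul_eq_mul]
      push_cast
      rfl
    rw [← h3, Finset.sum_congr rfl fun x _ => h1 x, ← Finset.sum_filter, Finset.sum_const,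
      nsmul_eq_mul]
    congr 1
    have h5 : (Finset.univ.filter fun x => x ∈ Λ).card = 2 ^ k := by
      rw [← hc, Fintype.card_subtype]
    rw [h5]
    push_cast
    rfl
  exact mul_left_cancel₀ (by positivity) h2

/-- the coordinate Lagrangian -/
def L0 (k : ℕ) : Submodule (ZMod 2) (V k) where
  carrier := {x | x.2 = 0}
  zero_mem' := rfl
  add_mem' := by
    intro x y hx hy
    change (x + y).2 = 0
    rw [Prod.snd_add, show x.2 = 0 from hx, show y.2 = 0 from hy, add_zero]
  smul_mem' := by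
    intro c x hx
    change (c • x).2 = 0
    rw [Prod.smul_snd, show x.2 = 0 from hx, smul_zero]

theorem dotp_zero_right (a : Fin k → ZMod 2) : dotp a 0 = 0 := by
  unfold dotp
  simp

theorem L0_lag : Lag 2 k (L0 k) := by
  refine ⟨?_, ?_, fun h => (h rfl).elim⟩
  · have e : (L0 k) ≃ (Fin k → ZMod 2) :=
      { toFun := fun x => x.1.1
        invFun := fun a => ⟨(a, 0), rfl⟩
        left_inv := by
          rintro ⟨⟨a, b⟩, h⟩
          have h' : b = 0 := h
          subst h'
          rfl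
        right_inv := fun _ => rfl }
    rw [Nat.card_congr e, Nat.card_fun, Nat.card_fin, Nat.card_zmod]
  · intro x hx y hy
    rw [show x.2 = 0 from hx, show y.2 = 0 from hy, dotp_comm, dotp_comm 0 x.1, dotp_zero_right,
      dotp_zero_right, add_zero]

theorem gauss_q : ∑ x : V k, sg (q x) = 2 ^ k := by
  refine gauss L0_lag q q_add fun l hl => ?_
  unfold q
  rw [show l.2 = 0 from hl, dotp_zero_right]

/-- if `w s = q` on a Lagrangian then `q s = 0` -/
theorem arf {Λ : Submodule (ZMod 2) (V k)} (hΛ : Lag 2 k Λ) {s : V k}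
    (h : ∀ l ∈ Λ, w s l = q l) : q s = 0 := by
  have h1 : ∑ x : V k, sg (q x + w s x) = 2 ^ k := by
    refine gauss hΛ (fun x => q x + w s x) ?_ ?_
    · intro x y
      rw [q_add, w_add_right]
      ring
    · intro l hl
      rw [h l hl, two_zero]
  have h2 : ∑ x : V k, sg (q x + w s x) = sg (q s) * 2 ^ k := by
    rw [← gauss_q, Finset.mul_sum]
    refine Fintype.sum_equiv (Equiv.addRight s) _ _ fun x => ?_
    have e : (Equiv.addRight s) x = x + s := rfl
    rw [e, ← sg_add]
    congr 1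
    rw [q_add, w_comm x s]
    have := two_zero (q s)
    linear_combination -this
  rw [h1] at h2
  by_contra h3
  have h4 : q s = 1 := by
    revert h3
    generalize q s = a
    revert a
    decide
  rw [h4, sg_one] at h2
  have h5 : (0 : ℤ) < 2 ^ k := by positivity
  linarith

/-- `q` constant on a coset of a Lagrangian -/
theorem coset_zero {Λ : Submodule (ZMod 2) (V k)} (hΛ : Lag 2 k Λ) {s : V k} {c : ZMod 2}
    (h : ∀ l ∈ Λ, q (s + l) = c) : c = 0 ∧ ∀ l ∈ Λ, w s l = q l := by
  have h0 : q s = c := by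
    have := h 0 Λ.zero_mem
    rwa [add_zero] at this
  have h1 : ∀ l ∈ Λ, w s l = q l := by
    intro l hl
    have h2 := h l hl
    rw [q_add, h0] at h2
    have h3 := two_zero (q l)
    linear_combination h2 - h3
  exact ⟨by rw [← h0]; exact arf hΛ h1, h1⟩

theorem coset_const {Λ : Submodule (ZMod 2) (V k)} (hΛ : Lag 2 k Λ) {s : V k}
    (h : ∀ l ∈ Λ, w s l = q l) : ∀ l ∈ Λ, q (s + l) = 0 := by
  intro l hl
  rw [q_add, arf hΛ h, h l hl, zero_add, two_zero]

theorem coset_unique {Λ : Submodule (ZMod 2) (V k)} (hΛ : Lag 2 k Λ) {s s' : V k}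
    (h : ∀ l ∈ Λ, w s l = q l) : (∀ l ∈ Λ, w s' l = q l) ↔ s' + s ∈ Λ := by
  constructor
  · intro h'
    refine lag_mem hΛ fun l hl => ?_
    rw [w_add_left, h' l hl, h l hl, two_zero]
  · intro h' l hl
    have e : s' = (s' + s) + s := by rw [add_assoc, v_two, add_zero]
    rw [e, w_add_left, lag_w hΛ h' hl, h l hl, zero_add]

theorem coset_exists {Λ : Submodule (ZMod 2) (V k)} (hΛ : Lag 2 k Λ) :
    ∃ s : V k, ∀ l ∈ Λ, w s l = q l := by
  let φ : V k →ₗ[ZMod 2] Module.Dual (ZMod 2) Λ :=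
    { toFun := fun s => (W k s).comp Λ.subtype
      map_add' := fun s s' => by rw [map_add, LinearMap.add_comp]
      map_smul' := fun c s => by rw [map_smul, LinearMap.smul_comp]; rfl }
  have hker : LinearMap.ker φ = Λ := by
    ext s
    rw [LinearMap.mem_ker]
    constructor
    · intro h
      refine lag_mem hΛ fun l hl => ?_
      exact LinearMap.congr_fun h ⟨l, hl⟩
    · intro h
      refine LinearMap.ext fun l => ?_
      exact lag_w hΛ h l.2
  have hsurj : Function.Surjective φ := by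
    rw [← LinearMap.range_eq_top]
    refine Submodule.eq_top_of_finrank_eq ?_
    have h1 := LinearMap.finrank_range_add_finrank_ker φ
    rw [hker] at h1
    have h2 : Module.finrank (ZMod 2) Λ = k := by
      have h3 := hΛ.1
      rw [Module.natCard_eq_pow_finrank (K := ZMod 2) (V := Λ), Nat.card_zmod] at h3
      exact Nat.pow_right_injective le_rfl h3
    have h3 : Module.finrank (ZMod 2) (V k) = 2 * k := by
      have h4 := card_V (k := k)
      rw [Module.natCard_eq_pow_finrank (K := ZMod 2) (V := V k), Nat.card_zmod] at h4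
      have h5 : (4 : ℕ) ^ k = 2 ^ (2 * k) := by rw [pow_mul]; norm_num
      rw [h5] at h4
      exact Nat.pow_right_injective le_rfl h4
    rw [Subspace.dual_finrank_eq, h2]
    omega
  let ψ : Module.Dual (ZMod 2) Λ :=
    { toFun := fun l => q l.1
      map_add' := fun l l' => by
        change q (l.1 + l'.1) = _
        rw [q_add, lag_w hΛ l.2 l'.2, add_zero]
      map_smul' := fun c l => by
        change q (c • l.1) = c * q l.1
        unfold q
        rw [Prod.smul_fst, Prod.smul_snd, dotp_smul_left, dotp_smul_right, ← mul_assoc]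
        congr 1
        revert c
        decide }
  obtain ⟨s, hs⟩ := hsurj ψ
  exact ⟨s, fun l hl => LinearMap.congr_fun hs ⟨l, hl⟩⟩

end Pool.Agent.H74.SL
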